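import Mathlib

/-!
# MP_26e8bc_co: the jet graphs of a very well covered graph are very well covered

The proof uses Favaron's matching characterisation (proved here).
-/

namespace Pool.Agent.Results.MP_26e8bc_co.JetsVeryWellCovered

open Finset

/-- `S` is a maximal independent set of `G`. -/
def MaxIndep {V : Type*} (G : SimpleGraph V) (S : Finset V) : Prop :=
  G.IsIndepSet (S : Set V) ∧ ∀ T : Finset V, G.IsIndepSet (T : Set V) → S ⊆ T → T = S

/-- Well covered graphs. -/
def WellCovered {V : Type*} (G : SimpleGraph V) : Prop :=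
  ∀ S T : Finset V, MaxIndep G S → MaxIndep G T → S.card = T.card

/-- Very well covered graphs: no isolated vertices, well covered, and `|V| = 2 α(G)`. -/
def VeryWellCovered {V : Type*} [Fintype V] (G : SimpleGraph V) : Prop :=
  (∀ v, ∃ w, G.Adj v w) ∧ WellCovered G ∧ Fintype.card V = 2 * G.indepNum

/-- The graph of `s`-jets. -/
def jet {V : Type*} (G : SimpleGraph V) (s : ℕ) : SimpleGraph (V × Fin (s + 1)) where
  Adj u v := G.Adj u.1 v.1 ∧ u.2.val + v.2.val ≤ s
  symm := ⟨fun _ _ h => ⟨h.1.symm, by have := h.2; omega⟩⟩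
  loopless := ⟨fun _ h => G.irrefl h.1⟩

variable {V : Type*} [Fintype V] [DecidableEq V] {G : SimpleGraph V}

omit [Fintype V] [DecidableEq V] in
theorem indep_iff {S : Finset V} : G.IsIndepSet (S : Set V) ↔ ∀ u ∈ S, ∀ v ∈ S, ¬ G.Adj u v := by
  constructor
  · intro h u hu v hv huv
    exact h hu hv huv.ne huv
  · intro h u hu v hv _ huv
    exact h u hu v hv huv

theorem exists_max (T : Finset V) (hT : G.IsIndepSet (T : Set V)) :
    ∃ S, T ⊆ S ∧ MaxIndep G S := by
  classical
  have hne : (Finset.univ.filter (fun S : Finset V => T ⊆ S ∧ G.IsIndepSet (S : Set V))).Nonempty :=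
    ⟨T, by simp [hT]⟩
  obtain ⟨S, hS, hmax⟩ := Finset.exists_max_image _ Finset.card hne
  simp only [Finset.mem_filter, Finset.mem_univ, true_and] at hS hmax
  refine ⟨S, hS.1, hS.2, ?_⟩
  intro U hU hSU
  have := hmax U ⟨hS.1.trans hSU, hU⟩
  exact (Finset.eq_of_subset_of_card_le hSU this).symm

omit [Fintype V] in
theorem max_dom {S : Finset V} (hS : MaxIndep G S) (v : V) (hv : v ∉ S) : ∃ u ∈ S, G.Adj v u := by
  by_contra hcon
  push Not at hcon
  have h1 : G.IsIndepSet ((insert v S : Finset V) : Set V) := by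
    rw [indep_iff]
    intro a ha b hb hab
    have h2 := indep_iff.1 hS.1
    rcases Finset.mem_insert.1 ha with ha' | ha' <;> rcases Finset.mem_insert.1 hb with hb' | hb'
    · rw [ha', hb'] at hab; exact G.irrefl hab
    · rw [ha'] at hab; exact hcon b hb' hab
    · rw [hb'] at hab; exact hcon a ha' hab.symm
    · exact h2 a ha' b hb' hab
  have h2 := hS.2 _ h1 (Finset.subset_insert _ _)
  apply hv
  rw [← h2]; exact Finset.mem_insert_self _ _

omit [DecidableEq V] in
theorem card_le_indepNum {S : Finset V} (hS : G.IsIndepSet (S : Set V)) : S.card ≤ G.indepNum := by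
  exact SimpleGraph.IsIndepSet.card_le_indepNum hS

/-- In a very well covered graph, maximal independent sets have `|V| / 2` elements. -/
theorem card_of_max (hG : VeryWellCovered G) {S : Finset V} (hS : MaxIndep G S) :
    S.card = G.indepNum := by
  obtain ⟨T, hT⟩ := G.exists_isNIndepSet_indepNum
  obtain ⟨T', h1, h2⟩ := exists_max T hT.isIndepSet
  have h3 := Finset.card_le_card h1
  rw [hT.card_eq] at h3
  have h4 := hG.2.1 S T' hS h2
  have h5 := card_le_indepNum hS.1
  omega

/-- Neighbourhood of a set. -/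
noncomputable def nb (G : SimpleGraph V) (A : Finset V) : Finset V := by
  classical exact Finset.univ.filter (fun v => ∃ a ∈ A, G.Adj a v)

omit [DecidableEq V] in
theorem mem_nb {A : Finset V} {v : V} : v ∈ nb G A ↔ ∃ a ∈ A, G.Adj a v := by
  unfold nb; simp

/-- Hall's condition for independent sets of very well covered graphs. -/
theorem hall (hG : VeryWellCovered G) : ∀ (n : ℕ) (A : Finset V), A.card = n →
    G.IsIndepSet (A : Set V) → A.card ≤ (nb G A).card := by
  classical
  intro n
  induction n using Nat.strong_induction_on with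
  | _ n ih =>
    intro A hAn hA
    rcases A.eq_empty_or_nonempty with hA0 | hA0
    · rw [hA0]; simp
    have hA' := indep_iff.1 hA
    -- a maximum independent subset `T` of `N(A)`
    have hne : ((nb G A).powerset.filter (fun S : Finset V => G.IsIndepSet (S : Set V))).Nonempty :=
      ⟨∅, by simp⟩
    obtain ⟨T, hT, hmax⟩ := Finset.exists_max_image _ Finset.card hne
    simp only [Finset.mem_filter, Finset.mem_powerset] at hT hmax
    obtain ⟨hTA, hTi⟩ := hT
    have hTi' := indep_iff.1 hTi
    have hTne : T.Nonempty := by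
      obtain ⟨a, ha⟩ := hA0
      obtain ⟨w, hw⟩ := hG.1 a
      have h1 := hmax {w} ⟨by
        rw [Finset.singleton_subset_iff, mem_nb]; exact ⟨a, ha, hw⟩, by
        rw [indep_iff]; intro u hu v hv huv
        rw [Finset.mem_singleton] at hu hv
        rw [hu, hv] at huv; exact G.irrefl huv⟩
      rw [Finset.card_singleton] at h1
      exact Finset.card_pos.1 h1
    -- `K` extends `T ∪ (A \ N(T))`
    have hTAi : G.IsIndepSet ((T ∪ (A \ nb G T) : Finset V) : Set V) := by
      rw [indep_iff]
      intro u hu v hv huv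
      rcases Finset.mem_union.1 hu with hu' | hu' <;> rcases Finset.mem_union.1 hv with hv' | hv'
      · exact hTi' u hu' v hv' huv
      · exact (Finset.mem_sdiff.1 hv').2 (mem_nb.2 ⟨u, hu', huv⟩)
      · exact (Finset.mem_sdiff.1 hu').2 (mem_nb.2 ⟨v, hv', huv.symm⟩)
      · exact hA' u (Finset.mem_sdiff.1 hu').1 v (Finset.mem_sdiff.1 hv').1 huv
    obtain ⟨K, hK1, hK2⟩ := exists_max _ hTAi
    have hKi := indep_iff.1 hK2.1
    have hTK : T ⊆ K := Finset.subset_union_left.trans hK1
    have hKN : K ∩ nb G A = T := by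
      apply (Finset.eq_of_subset_of_card_le _ _).symm
      · exact Finset.subset_inter hTK hTA
      · apply hmax
        refine ⟨Finset.inter_subset_right, ?_⟩
        rw [indep_iff]
        intro u hu v hv
        exact hKi u (Finset.mem_inter.1 hu).1 v (Finset.mem_inter.1 hv).1
    -- the exchanged set
    have hS : G.IsIndepSet (((A ∩ nb G T) ∪ (K \ nb G A) : Finset V) : Set V) := by
      rw [indep_iff]
      intro u hu v hv huv
      rcases Finset.mem_union.1 hu with hu' | hu' <;> rcases Finset.mem_union.1 hv with hv' | hv'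
      · exact hA' u (Finset.mem_inter.1 hu').1 v (Finset.mem_inter.1 hv').1 huv
      · exact (Finset.mem_sdiff.1 hv').2 (mem_nb.2 ⟨u, (Finset.mem_inter.1 hu').1, huv⟩)
      · exact (Finset.mem_sdiff.1 hu').2 (mem_nb.2 ⟨v, (Finset.mem_inter.1 hv').1, huv.symm⟩)
      · exact hKi u (Finset.mem_sdiff.1 hu').1 v (Finset.mem_sdiff.1 hv').1 huv
    have hdisj : Disjoint (A ∩ nb G T) (K \ nb G A) := by
      rw [Finset.disjoint_left]
      intro x hx hx'
      obtain ⟨h1, h2⟩ := Finset.mem_inter.1 hx
      obtain ⟨t, ht, htx⟩ := mem_nb.1 h2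
      exact hKi t (hTK ht) x (Finset.mem_sdiff.1 hx').1 htx
    have h1 := card_le_indepNum hS
    rw [Finset.card_union_of_disjoint hdisj, ← card_of_max hG hK2] at h1
    have h2 : (K \ nb G A).card + T.card = K.card := by
      rw [← hKN, Finset.card_sdiff_add_card_inter]
    have h3 : (A ∩ nb G T).card ≤ T.card := by omega
    have h4 : (A \ nb G T).card + (A ∩ nb G T).card = A.card := Finset.card_sdiff_add_card_inter _ _
    have h5 : 0 < (A ∩ nb G T).card := by
      obtain ⟨t, ht⟩ := hTne
      obtain ⟨a, ha, hat⟩ := mem_nb.1 (hTA ht)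
      exact Finset.card_pos.2 ⟨a, Finset.mem_inter.2 ⟨ha, mem_nb.2 ⟨t, ht, hat.symm⟩⟩⟩
    have h6 := ih (A \ nb G T).card (by omega) (A \ nb G T) rfl (by
      rw [indep_iff]
      intro u hu v hv
      exact hA' u (Finset.mem_sdiff.1 hu).1 v (Finset.mem_sdiff.1 hv).1)
    have h7 : nb G (A \ nb G T) ⊆ nb G A \ T := by
      intro x hx
      obtain ⟨a, ha, hax⟩ := mem_nb.1 hx
      obtain ⟨ha1, ha2⟩ := Finset.mem_sdiff.1 ha
      refine Finset.mem_sdiff.2 ⟨mem_nb.2 ⟨a, ha1, hax⟩, fun hxT => ha2 (mem_nb.2 ⟨x, hxT, hax.symm⟩)⟩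
    have h8 := Finset.card_le_card h7
    rw [Finset.card_sdiff_of_subset hTA] at h8
    have h9 := Finset.card_le_card hTA
    omega

/-- Favaron's property: `m` is a perfect matching and neighbours of matched vertices are adjacent. -/
def Favaron (G : SimpleGraph V) (m : V → V) : Prop :=
  (∀ v, m (m v) = v) ∧ (∀ v, G.Adj v (m v)) ∧ ∀ v w z, G.Adj v w → G.Adj (m v) z → G.Adj w z

theorem exists_favaron (hG : VeryWellCovered G) : ∃ m, Favaron G m := by
  classical
  obtain ⟨I, -, hI⟩ := exists_max (G := G) (∅ : Finset V) (by simp)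
  have hIi := indep_iff.1 hI.1
  have hIc : I.card = G.indepNum := card_of_max hG hI
  have h1 : ∀ s : Finset ↥I, s.card ≤ (s.biUnion (fun a => nb G {a.1})).card := by
    intro s
    have h2 := hall hG _ (s.map ⟨Subtype.val, Subtype.val_injective⟩) rfl (by
      rw [indep_iff]
      intro u hu v hv
      obtain ⟨u', _, rfl⟩ := Finset.mem_map.1 hu
      obtain ⟨v', _, rfl⟩ := Finset.mem_map.1 hv
      exact hIi _ u'.2 _ v'.2)
    rw [Finset.card_map] at h2
    refine h2.trans (Finset.card_le_card ?_)
    intro x hx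
    obtain ⟨a, ha, hax⟩ := mem_nb.1 hx
    obtain ⟨a', ha', rfl⟩ := Finset.mem_map.1 ha
    exact Finset.mem_biUnion.2 ⟨a', ha', mem_nb.2 ⟨a'.1, by simp, hax⟩⟩
  obtain ⟨f, hf1, hf2⟩ := (Finset.all_card_le_biUnion_card_iff_exists_injective _).1 h1
  have hf3 : ∀ a : ↥I, G.Adj a.1 (f a) := by
    intro a
    obtain ⟨b, hb, hbf⟩ := mem_nb.1 (hf2 a)
    rw [Finset.mem_singleton] at hb
    rwa [hb] at hbf
  have hf4 : ∀ a : ↥I, f a ∉ I := fun a h => hIi a.1 a.2 _ h (hf3 a)
  -- surjectivity onto the complement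
  have hf5 : ∀ v, v ∉ I → ∃ a, f a = v := by
    have h6 : (Finset.univ : Finset ↥I).image f = Iᶜ := by
      apply Finset.eq_of_subset_of_card_le
      · intro x hx
        obtain ⟨a, -, rfl⟩ := Finset.mem_image.1 hx
        exact Finset.mem_compl.2 (hf4 a)
      · rw [Finset.card_image_of_injective _ hf1, Finset.card_compl, hG.2.2, Finset.card_univ,
          Fintype.card_coe, hIc]
        omega
    intro v hv
    have : v ∈ (Finset.univ : Finset ↥I).image f := by rw [h6]; exact Finset.mem_compl.2 hv
    obtain ⟨a, -, ha⟩ := Finset.mem_image.1 this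
    exact ⟨a, ha⟩
  choose g hg using hf5
  let m : V → V := fun v => if h : v ∈ I then f ⟨v, h⟩ else (g v h).1
  have hm1 : ∀ (v : V) (h : v ∈ I), m v = f ⟨v, h⟩ := fun v h => by simp [m, h]
  have hm2 : ∀ (v : V) (h : v ∉ I), m v = (g v h).1 := fun v h => by simp [m, h]
  have hmm : ∀ v, m (m v) = v := by
    intro v
    by_cases h : v ∈ I
    · rw [hm1 v h, hm2 _ (hf4 _)]
      have := hg (f ⟨v, h⟩) (hf4 _)
      have := hf1 this
      rw [this]
    · rw [hm2 v h, hm1 _ (g v h).2]
      exact hg v h
  have hmadj : ∀ v, G.Adj v (m v) := by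
    intro v
    by_cases h : v ∈ I
    · rw [hm1 v h]; exact hf3 ⟨v, h⟩
    · rw [hm2 v h]
      have := hf3 (g v h)
      rw [hg v h] at this
      exact this.symm
  refine ⟨m, hmm, hmadj, ?_⟩
  -- every maximal independent set meets every matching edge
  have hmeet : ∀ K : Finset V, MaxIndep G K → ∀ v, v ∈ K ∨ m v ∈ K := by
    intro K hK v
    have hKi := indep_iff.1 hK.1
    have hKc : K.card = G.indepNum := card_of_max hG hK
    have h1 : K.image m = Kᶜ := by
      apply Finset.eq_of_subset_of_card_le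
      · intro x hx
        obtain ⟨a, ha, rfl⟩ := Finset.mem_image.1 hx
        exact Finset.mem_compl.2 (fun h => hKi a ha _ h (hmadj a))
      · rw [Finset.card_image_of_injective _ (Function.LeftInverse.injective hmm),
          Finset.card_compl, hG.2.2, hKc]
        omega
    by_cases h : v ∈ K
    · exact Or.inl h
    · right
      have : v ∈ K.image m := by rw [h1]; exact Finset.mem_compl.2 h
      obtain ⟨a, ha, rfl⟩ := Finset.mem_image.1 this
      rw [hmm]; exact ha
  intro v w z hvw hmz
  by_contra hwz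
  have hi : G.IsIndepSet (({w, z} : Finset V) : Set V) := by
    rw [indep_iff]
    intro a ha b hb hab
    rw [Finset.mem_insert, Finset.mem_singleton] at ha hb
    rcases ha with rfl | rfl <;> rcases hb with rfl | rfl
    · exact G.irrefl hab
    · exact hwz hab
    · exact hwz hab.symm
    · exact G.irrefl hab
  obtain ⟨K, hK1, hK2⟩ := exists_max _ hi
  have hKi := indep_iff.1 hK2.1
  have hw : w ∈ K := hK1 (by simp)
  have hz : z ∈ K := hK1 (by simp)
  rcases hmeet K hK2 v with h | h
  · exact hKi _ h _ hw hvw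
  · exact hKi _ h _ hz hmz

/-- Favaron's property implies very well covered. -/
theorem vwc_of_favaron {m : V → V} (h : Favaron G m) : VeryWellCovered G := by
  classical
  obtain ⟨h1, h2, h3⟩ := h
  have key : ∀ K : Finset V, MaxIndep G K → 2 * K.card = Fintype.card V := by
    intro K hK
    have hKi := indep_iff.1 hK.1
    have h4 : K.image m = Kᶜ := by
      ext x
      rw [Finset.mem_compl]
      constructor
      · intro hx
        obtain ⟨a, ha, rfl⟩ := Finset.mem_image.1 hx
        exact fun h => hKi a ha _ h (h2 a)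
      · intro hx
        by_contra hcon
        have hmx : m x ∉ K := fun h => hcon (Finset.mem_image.2 ⟨m x, h, h1 x⟩)
        obtain ⟨u, hu, hxu⟩ := max_dom hK x hx
        obtain ⟨w, hw, hmw⟩ := max_dom hK (m x) hmx
        exact hKi u hu w hw (h3 x u w hxu hmw)
    have h5 := congrArg Finset.card h4
    rw [Finset.card_image_of_injective _ (Function.LeftInverse.injective h1),
      Finset.card_compl] at h5
    have := Finset.card_le_univ K
    omega
  refine ⟨fun v => ⟨m v, h2 v⟩, ?_, ?_⟩
  · intro S T hS hT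
    have := key S hS
    have := key T hT
    omega
  · obtain ⟨T, hT⟩ := G.exists_isNIndepSet_indepNum
    obtain ⟨T', h4, h5⟩ := exists_max T hT.isIndepSet
    have h6 := Finset.card_le_card h4
    rw [hT.card_eq] at h6
    have h7 := card_le_indepNum h5.1
    have := key T' h5
    omega

/-- **Positive answer to Q1 of MP_26e8bc_co.** -/
theorem result {V : Type*} [Fintype V] (G : SimpleGraph V) (hG : VeryWellCovered G) (s : ℕ) :
    VeryWellCovered (jet G s) := by
  classical
  obtain ⟨m, h1, h2, h3⟩ := exists_favaron hG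
  apply vwc_of_favaron (m := fun v => (m v.1, Fin.rev v.2))
  refine ⟨?_, ?_, ?_⟩
  · intro v
    simp [h1]
  · intro v
    refine ⟨h2 v.1, ?_⟩
    simp only [Fin.val_rev]
    have := v.2.2
    omega
  · rintro v w z ⟨a1, a2⟩ ⟨b1, b2⟩
    refine ⟨h3 _ _ _ a1 b1, ?_⟩
    simp only [Fin.val_rev] at b2
    have := v.2.2
    omega

end Pool.Agent.Results.MP_26e8bc_co.JetsVeryWellCovered
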